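import Pool.Agent.N983.RT.Stm2
import Pool.Agent.N983.RT.BCD

set_option autoImplicit false

/-!
DET (helper884): deterministic sets of wave vectors.
-/

namespace U884RT

open Pool.Agent.N983.RT

theorem det_main (hC : S_CS) (K : Set Wv) (B γ : ℝ) (hK : ∀ k ∈ K, -k ∈ K) (hK0 : (0 : Wv) ∉ K)
    (hB : 0 ≤ B) (hγ : 0 ≤ γ)
    (hcnt : ∀ R : ℕ, 1 ≤ R → ∀ p ∈ cub R, ∀ q ∈ cub R, p ≠ q → p ≠ 0 → q ≠ 0 →
      (cnt K R p q : ℝ) ≤ B * (R : ℝ) ^ γ) : TB (dec K) (γ / 2) := by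
  intro s i
  refine ⟨2 ^ (1 + 2 * s) * Real.sqrt (2 + B * (2 : ℝ) ^ γ), by positivity, fun c x y z => ?_⟩
  have hM0 : 0 ≤ B * (((2 : ℕ) ^ (c + 1) : ℕ) : ℝ) ^ γ := by positivity
  have h1 := bcd_det hC K hK hK0 s c i (B * (((2 : ℕ) ^ (c + 1) : ℕ) : ℝ) ^ γ) hM0
    (hcnt (2 ^ (c + 1)) Nat.one_le_two_pow) x y z
  refine h1.trans ?_
  have hN : 0 ≤ N2 (2 ^ (c + 1)) x * N2 (2 ^ (c + 1)) y * N2 (2 ^ (c + 1)) z := by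
    unfold N2; positivity
  rw [← mul_assoc]
  refine mul_le_mul_of_nonneg_right ?_ hN
  have h2c : (1 : ℝ) ≤ (2 : ℝ) ^ c := one_le_pow₀ (by norm_num)
  have hr1 : (1 : ℝ) ≤ ((2 : ℝ) ^ c) ^ γ := Real.one_le_rpow h2c hγ
  have hM1 : 2 + B * (((2 : ℕ) ^ (c + 1) : ℕ) : ℝ) ^ γ ≤
      (2 + B * (2 : ℝ) ^ γ) * ((2 : ℝ) ^ c) ^ γ := by
    have e : (((2 : ℕ) ^ (c + 1) : ℕ) : ℝ) ^ γ = (2 : ℝ) ^ γ * ((2 : ℝ) ^ c) ^ γ := by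
      push_cast
      rw [pow_succ, mul_comm ((2 : ℝ) ^ c) 2, Real.mul_rpow (by norm_num) (by positivity)]
    rw [e]
    nlinarith
  have hsq : Real.sqrt (2 + B * (((2 : ℕ) ^ (c + 1) : ℕ) : ℝ) ^ γ) ≤
      Real.sqrt (2 + B * (2 : ℝ) ^ γ) * ((2 : ℝ) ^ c) ^ (γ / 2) := by
    calc Real.sqrt (2 + B * (((2 : ℕ) ^ (c + 1) : ℕ) : ℝ) ^ γ)
        ≤ Real.sqrt ((2 + B * (2 : ℝ) ^ γ) * ((2 : ℝ) ^ c) ^ γ) := Real.sqrt_le_sqrt hM1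
      _ = Real.sqrt (2 + B * (2 : ℝ) ^ γ) * Real.sqrt (((2 : ℝ) ^ c) ^ γ) :=
          Real.sqrt_mul (by positivity) _
      _ = Real.sqrt (2 + B * (2 : ℝ) ^ γ) * ((2 : ℝ) ^ c) ^ (γ / 2) := by
          congr 1
          rw [show γ = γ / 2 + γ / 2 by ring, Real.rpow_add (by positivity),
            Real.sqrt_mul_self (by positivity)]
          ring_nf
  have hpow : ((2 : ℝ) ^ c) ^ (1 + 2 * (s : ℝ) + γ / 2) = ((2 : ℝ) ^ c) ^ (1 + 2 * s) *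
      ((2 : ℝ) ^ c) ^ (γ / 2) := by
    rw [Real.rpow_add (by positivity)]
    congr 1
    rw [← Real.rpow_natCast ((2 : ℝ) ^ c) (1 + 2 * s)]
    congr 1
    push_cast
    ring
  rw [hpow]
  calc ((2 : ℝ) ^ (c + 1)) ^ (1 + 2 * s) *
        Real.sqrt (2 + B * (((2 : ℕ) ^ (c + 1) : ℕ) : ℝ) ^ γ)
      ≤ ((2 : ℝ) ^ (c + 1)) ^ (1 + 2 * s) * (Real.sqrt (2 + B * (2 : ℝ) ^ γ) *
        ((2 : ℝ) ^ c) ^ (γ / 2)) := by gcongr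
    _ = 2 ^ (1 + 2 * s) * Real.sqrt (2 + B * (2 : ℝ) ^ γ) * (((2 : ℝ) ^ c) ^ (1 + 2 * s) *
        ((2 : ℝ) ^ c) ^ (γ / 2)) := by
        rw [pow_succ 2 c, mul_pow]
        ring

/-- (DET) deterministic sets of wave vectors -/
theorem t_DET : S_DET := fun hC K B γ hK hK0 hB hγ hcnt => det_main hC K B γ hK hK0 hB hγ hcnt

end U884RT
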