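import Pool.Agent.N983.RT.Stm

set_option autoImplicit false

/-!
ESY (helper884): elementary symmetric functions.
-/

namespace U884RT

open Finset

theorem pow_step (y r : ℝ) (hy : 0 ≤ y) (hr : 0 ≤ r) (n : ℕ) :
    y ^ (n + 1) + (n + 1) * r * y ^ n ≤ (y + r) ^ (n + 1) := by
  induction n with
  | zero => simp
  | succ n ih =>
    have h1 : (y + r) * (y ^ (n + 1) + (n + 1) * r * y ^ n) ≤ (y + r) * (y + r) ^ (n + 1) :=
      mul_le_mul_of_nonneg_left ih (by positivity)
    have h2 : 0 ≤ (n + 1) * r ^ 2 * y ^ n := by positivity
    calc y ^ (n + 1 + 1) + ((n + 1 : ℕ) + 1) * r * y ^ (n + 1)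
        ≤ (y + r) * (y ^ (n + 1) + (n + 1) * r * y ^ n) := by
          push_cast
          have e : (y + r) * (y ^ (n + 1) + (n + 1) * r * y ^ n) -
            (y ^ (n + 1 + 1) + ((n : ℝ) + 1 + 1) * r * y ^ (n + 1)) = (n + 1) * r ^ 2 * y ^ n := by
            ring
          linarith
      _ ≤ (y + r) * (y + r) ^ (n + 1) := h1
      _ = (y + r) ^ (n + 1 + 1) := by ring

theorem esy {α : Type*} (A : Finset α) (r : α → ℝ) (hr : ∀ m, 0 ≤ r m) :
    ∀ s : ℕ, ∑ T ∈ A.powersetCard s, ∏ m ∈ T, r m ≤ (∑ m ∈ A, r m) ^ s / s.factorial := by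
  classical
  induction A using Finset.induction_on with
  | empty =>
    intro s
    rcases s with _ | s
    · simp
    · rw [powersetCard_eq_empty.2 (by simp)]
      simp
  | insert a A ha ih =>
    intro s
    rcases s with _ | s
    · simp
    · rw [powersetCard_succ_insert ha, sum_union, sum_insert ha]
      · have h1 := ih (s + 1)
        have h2 := ih s
        have h3 : ∑ T ∈ (powersetCard s A).image (insert a), ∏ m ∈ T, r m =
            r a * ∑ T ∈ powersetCard s A, ∏ m ∈ T, r m := by
          rw [sum_image, mul_sum]
          · apply sum_congr rfl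
            intro T hT
            have haT : a ∉ T := fun h => ha ((mem_powersetCard.1 hT).1 h)
            rw [prod_insert haT]
          · intro T hT T' hT' h
            have haT : a ∉ T := fun h => ha ((mem_powersetCard.1 hT).1 h)
            have haT' : a ∉ T' := fun h => ha ((mem_powersetCard.1 hT').1 h)
            rw [← erase_insert haT, ← erase_insert haT', h]
        rw [h3]
        set y := ∑ m ∈ A, r m with hy
        have hy0 : 0 ≤ y := sum_nonneg fun m _ => hr m
        have hp := pow_step y (r a) hy0 (hr a) s
        have hf : (0 : ℝ) < s.factorial := by exact_mod_cast Nat.factorial_pos s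
        have hf1 : ((s + 1).factorial : ℝ) = (s + 1) * s.factorial := by
          rw [Nat.factorial_succ]; push_cast; ring
        have h4 : r a * ∑ T ∈ powersetCard s A, ∏ m ∈ T, r m ≤ r a * (y ^ s / s.factorial) :=
          mul_le_mul_of_nonneg_left h2 (hr a)
        have h5 : y ^ (s + 1) / (s + 1).factorial + r a * (y ^ s / s.factorial) =
            (y ^ (s + 1) + (s + 1) * r a * y ^ s) / (s + 1).factorial := by
          rw [hf1]
          have hs1 : (s : ℝ) + 1 ≠ 0 := by positivity
          field_simp
        calc _ ≤ y ^ (s + 1) / (s + 1).factorial + r a * (y ^ s / s.factorial) := add_le_add h1 h4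
          _ = (y ^ (s + 1) + (s + 1) * r a * y ^ s) / (s + 1).factorial := h5
          _ ≤ (r a + y) ^ (s + 1) / (s + 1).factorial := by
            apply div_le_div_of_nonneg_right _ (by positivity)
            rw [add_comm (r a) y]
            exact hp
      · rw [disjoint_left]
        intro T hT hT'
        obtain ⟨T0, h0, rfl⟩ := mem_image.1 hT'
        exact ha ((mem_powersetCard.1 hT).1 (mem_insert_self a T0))

end U884RT

/-- (ESY) elementary symmetric functions -/
theorem U884RT.t_ESY : Pool.Agent.N983.RT.S_ESY := fun A r hr s => U884RT.esy A r hr s
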