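import Pool.Agent.U136.RT.LabStm

set_option autoImplicit false

/-! Lattice points on circles in space. -/

namespace Pool.Agent.U884.RT.CIR

open Pool.Agent.N983.RT Pool.Agent.U136.RT.Lab

theorem sq0 (u v w : ℤ) (h : u ^ 2 + v ^ 2 + w ^ 2 = 0) : u = 0 ∧ v = 0 ∧ w = 0 := by
  have hu := sq_nonneg u
  have hv := sq_nonneg v
  have hw := sq_nonneg w
  refine ⟨pow_eq_zero_iff (two_ne_zero) |>.1 ?_, pow_eq_zero_iff (two_ne_zero) |>.1 ?_,
    pow_eq_zero_iff (two_ne_zero) |>.1 ?_⟩ <;> linarith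

/-- a line meets a sphere in at most two points -/
theorem line_sphere (a b c p q r e1 e2 e3 f1 f2 f3 x y z : ℤ)
    (hkD : a * p + b * q + c * r = 0) (hk : ¬ (a = 0 ∧ b = 0 ∧ c = 0))
    (hD : ¬ (p = 0 ∧ q = 0 ∧ r = 0))
    (hkE : a * e1 + b * e2 + c * e3 = 0) (hkF : a * f1 + b * f2 + c * f3 = 0)
    (hDE : p * e1 + q * e2 + r * e3 = 0) (hDF : p * f1 + q * f2 + r * f3 = 0)
    (hE : e1 ^ 2 + e2 ^ 2 + e3 ^ 2 = -2 * (x * e1 + y * e2 + z * e3))
    (hF : f1 ^ 2 + f2 ^ 2 + f3 ^ 2 = -2 * (x * f1 + y * f2 + z * f3))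
    (hE0 : ¬ (e1 = 0 ∧ e2 = 0 ∧ e3 = 0)) (hF0 : ¬ (f1 = 0 ∧ f2 = 0 ∧ f3 = 0)) :
    e1 = f1 ∧ e2 = f2 ∧ e3 = f3 := by
  -- the cross product of `e` and `f`
  obtain ⟨g1, hg1⟩ : ∃ g, g = e2 * f3 - e3 * f2 := ⟨_, rfl⟩
  obtain ⟨g2, hg2⟩ : ∃ g, g = e3 * f1 - e1 * f3 := ⟨_, rfl⟩
  obtain ⟨g3, hg3⟩ : ∃ g, g = e1 * f2 - e2 * f1 := ⟨_, rfl⟩
  -- `k × g = 0`
  have k1 : b * g3 - c * g2 = 0 := by rw [hg3, hg2]; linear_combination e1 * hkF - f1 * hkE
  have k2 : c * g1 - a * g3 = 0 := by rw [hg3, hg1]; linear_combination e2 * hkF - f2 * hkE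
  have k3 : a * g2 - b * g1 = 0 := by rw [hg2, hg1]; linear_combination e3 * hkF - f3 * hkE
  have d1 : q * g3 - r * g2 = 0 := by rw [hg3, hg2]; linear_combination e1 * hDF - f1 * hDE
  have d2 : r * g1 - p * g3 = 0 := by rw [hg3, hg1]; linear_combination e2 * hDF - f2 * hDE
  have d3 : p * g2 - q * g1 = 0 := by rw [hg2, hg1]; linear_combination e3 * hDF - f3 * hDE
  have hG : g1 = 0 ∧ g2 = 0 ∧ g3 = 0 := by
    by_contra hne
    have hG2 : g1 ^ 2 + g2 ^ 2 + g3 ^ 2 ≠ 0 := fun h => hne (sq0 _ _ _ h)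
    have hkk : ∀ u v w s : ℤ, (g1 ^ 2 + g2 ^ 2 + g3 ^ 2) * u = s * g1 →
        (g1 ^ 2 + g2 ^ 2 + g3 ^ 2) * v = s * g2 → (g1 ^ 2 + g2 ^ 2 + g3 ^ 2) * w = s * g3 →
        s = 0 → u = 0 ∧ v = 0 ∧ w = 0 := by
      intro u v w s h1 h2 h3 hs
      rw [hs, zero_mul] at h1 h2 h3
      exact ⟨(mul_eq_zero.1 h1).resolve_left hG2, (mul_eq_zero.1 h2).resolve_left hG2,
        (mul_eq_zero.1 h3).resolve_left hG2⟩
    have A1 : (g1 ^ 2 + g2 ^ 2 + g3 ^ 2) * a = (a * g1 + b * g2 + c * g3) * g1 := by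
      linear_combination g2 * k3 - g3 * k2
    have A2 : (g1 ^ 2 + g2 ^ 2 + g3 ^ 2) * b = (a * g1 + b * g2 + c * g3) * g2 := by
      linear_combination g3 * k1 - g1 * k3
    have A3 : (g1 ^ 2 + g2 ^ 2 + g3 ^ 2) * c = (a * g1 + b * g2 + c * g3) * g3 := by
      linear_combination g1 * k2 - g2 * k1
    have B1 : (g1 ^ 2 + g2 ^ 2 + g3 ^ 2) * p = (p * g1 + q * g2 + r * g3) * g1 := by
      linear_combination g2 * d3 - g3 * d2
    have B2 : (g1 ^ 2 + g2 ^ 2 + g3 ^ 2) * q = (p * g1 + q * g2 + r * g3) * g2 := by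
      linear_combination g3 * d1 - g1 * d3
    have B3 : (g1 ^ 2 + g2 ^ 2 + g3 ^ 2) * r = (p * g1 + q * g2 + r * g3) * g3 := by
      linear_combination g1 * d2 - g2 * d1
    have hz : (g1 ^ 2 + g2 ^ 2 + g3 ^ 2) *
        ((a * g1 + b * g2 + c * g3) * (p * g1 + q * g2 + r * g3)) = 0 := by
      have : (g1 ^ 2 + g2 ^ 2 + g3 ^ 2) * ((a * g1 + b * g2 + c * g3) * (p * g1 + q * g2 + r * g3)) =
          (g1 ^ 2 + g2 ^ 2 + g3 ^ 2) ^ 2 * (a * p + b * q + c * r) := by
        linear_combination (-(g1 ^ 2 + g2 ^ 2 + g3 ^ 2) * p) * A1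
          - ((g1 ^ 2 + g2 ^ 2 + g3 ^ 2) * q) * A2 - ((g1 ^ 2 + g2 ^ 2 + g3 ^ 2) * r) * A3
          - ((a * g1 + b * g2 + c * g3) * g1) * B1 - ((a * g1 + b * g2 + c * g3) * g2) * B2
          - ((a * g1 + b * g2 + c * g3) * g3) * B3
      rw [this, hkD, mul_zero]
    rcases mul_eq_zero.1 ((mul_eq_zero.1 hz).resolve_left hG2) with h | h
    · exact hk (hkk a b c _ A1 A2 A3 h)
    · exact hD (hkk p q r _ B1 B2 B3 h)
  obtain ⟨G1, G2, G3⟩ := hG
  rw [G1] at hg1
  rw [G2] at hg2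
  rw [G3] at hg3
  have hEn : e1 ^ 2 + e2 ^ 2 + e3 ^ 2 ≠ 0 := fun h => hE0 (sq0 _ _ _ h)
  have hFn : f1 ^ 2 + f2 ^ 2 + f3 ^ 2 ≠ 0 := fun h => hF0 (sq0 _ _ _ h)
  -- `|e|² f = (e·f) e`
  have P1 : (e1 ^ 2 + e2 ^ 2 + e3 ^ 2) * f1 = (e1 * f1 + e2 * f2 + e3 * f3) * e1 := by
    linear_combination (-e3) * hg2 + e2 * hg3
  have P2 : (e1 ^ 2 + e2 ^ 2 + e3 ^ 2) * f2 = (e1 * f1 + e2 * f2 + e3 * f3) * e2 := by
    linear_combination (-e1) * hg3 + e3 * hg1
  have P3 : (e1 ^ 2 + e2 ^ 2 + e3 ^ 2) * f3 = (e1 * f1 + e2 * f2 + e3 * f3) * e3 := by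
    linear_combination (-e2) * hg1 + e1 * hg2
  have Q1 : (f1 ^ 2 + f2 ^ 2 + f3 ^ 2) * e1 = (e1 * f1 + e2 * f2 + e3 * f3) * f1 := by
    linear_combination f3 * hg2 - f2 * hg3
  have Q2 : (f1 ^ 2 + f2 ^ 2 + f3 ^ 2) * e2 = (e1 * f1 + e2 * f2 + e3 * f3) * f2 := by
    linear_combination f1 * hg3 - f3 * hg1
  have Q3 : (f1 ^ 2 + f2 ^ 2 + f3 ^ 2) * e3 = (e1 * f1 + e2 * f2 + e3 * f3) * f3 := by
    linear_combination f2 * hg1 - f1 * hg2
  have hf : f1 ^ 2 + f2 ^ 2 + f3 ^ 2 = e1 * f1 + e2 * f2 + e3 * f3 := by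
    have : (e1 ^ 2 + e2 ^ 2 + e3 ^ 2) * (f1 ^ 2 + f2 ^ 2 + f3 ^ 2) =
        (e1 ^ 2 + e2 ^ 2 + e3 ^ 2) * (e1 * f1 + e2 * f2 + e3 * f3) := by
      linear_combination (e1 ^ 2 + e2 ^ 2 + e3 ^ 2) * hF - 2 * x * P1 - 2 * y * P2 - 2 * z * P3
        - (e1 * f1 + e2 * f2 + e3 * f3) * hE
    exact mul_left_cancel₀ hEn this
  have he : e1 ^ 2 + e2 ^ 2 + e3 ^ 2 = e1 * f1 + e2 * f2 + e3 * f3 := by
    have : (f1 ^ 2 + f2 ^ 2 + f3 ^ 2) * (e1 ^ 2 + e2 ^ 2 + e3 ^ 2) =
        (f1 ^ 2 + f2 ^ 2 + f3 ^ 2) * (e1 * f1 + e2 * f2 + e3 * f3) := by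
      linear_combination (f1 ^ 2 + f2 ^ 2 + f3 ^ 2) * hE - 2 * x * Q1 - 2 * y * Q2 - 2 * z * Q3
        - (e1 * f1 + e2 * f2 + e3 * f3) * hF
    exact mul_left_cancel₀ hFn this
  have h0 := sq0 (e1 - f1) (e2 - f2) (e3 - f3) (by linear_combination hf + he)
  omega

/-- two proportional vectors, one of them nonnegative -/
theorem cone (e u : Fin 3 → ℤ) (hu : ∀ i, 0 ≤ u i) (j : Fin 3) (hj : 0 < u j)
    (h : ∀ i l, e i * u l = e l * u i) (i : Fin 3) : |e i| ≤ |∑ l, e l| := by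
  have h1 : (∑ l, e l) * u j = e j * ∑ l, u l := by
    rw [Finset.sum_mul, Finset.mul_sum]
    exact Finset.sum_congr rfl fun l _ => h l j
  have h2 : |e i| * u j = |e j| * u i := by
    have := congrArg abs (h i j)
    rwa [abs_mul, abs_mul, abs_of_nonneg (hu i), abs_of_nonneg (hu j)] at this
  have h3 : |∑ l, e l| * u j = |e j| * ∑ l, u l := by
    have := congrArg abs h1
    rwa [abs_mul, abs_mul, abs_of_nonneg (hu j),
      abs_of_nonneg (Finset.sum_nonneg fun l _ => hu l)] at this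
  have h4 : u i ≤ ∑ l, u l := Finset.single_le_sum (fun l _ => hu l) (Finset.mem_univ i)
  have h5 : |e i| * u j ≤ |∑ l, e l| * u j := by
    rw [h2, h3]; exact mul_le_mul_of_nonneg_left h4 (abs_nonneg _)
  exact le_of_mul_le_mul_right h5 hj

/-- the cross product -/
def crs (k P : Wv) : Fin 3 → ℤ := ![k 1 * P 2 - k 2 * P 1, k 2 * P 0 - k 0 * P 2, k 0 * P 1 - k 1 * P 0]

/-- the sign -/
def sg (b : Bool) : ℤ := if b then 1 else -1

theorem sg_sq (b : Bool) : sg b * sg b = 1 := by cases b <;> rfl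

theorem abs_sg (b : Bool) (x : ℤ) : |sg b * x| = |x| := by cases b <;> simp [sg]

/-- the signs of the cross product -/
def cls (k P : Wv) (i : Fin 3) : Bool := decide (0 ≤ crs k P i)

theorem cls_nonneg (k P : Wv) (i : Fin 3) : 0 ≤ sg (cls k P i) * crs k P i := by
  unfold cls sg
  by_cases h : 0 ≤ crs k P i
  · simp [h]
  · simp [h]; omega

/-- two points of the circle in the same class -/
theorem mono (k P Q : Wv) (hk : k ≠ 0) (hPQ : P ≠ Q) (n c : ℤ)
    (hP : ∑ i, P i ^ 2 = n) (hQ : ∑ i, Q i ^ 2 = n)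
    (hkP : ∑ i, k i * P i = c) (hkQ : ∑ i, k i * Q i = c) (hc : cls k P = cls k Q) (i : Fin 3) :
    |Q i - P i| ≤ |(∑ l, sg (cls k P l) * Q l) - ∑ l, sg (cls k P l) * P l| := by
  simp only [Fin.sum_univ_three] at hP hQ hkP hkQ
  have hu0 : ∀ l, 0 ≤ sg (cls k P l) * (crs k P l + crs k Q l) := by
    intro l
    have h1 := cls_nonneg k P l
    have h2 := cls_nonneg k Q l
    rw [← hc] at h2
    linarith [mul_add (sg (cls k P l)) (crs k P l) (crs k Q l)]
  have hpos : ∃ j, 0 < sg (cls k P j) * (crs k P j + crs k Q j) := by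
    by_contra hno
    push Not at hno
    have hz : ∀ l, crs k P l = 0 ∧ crs k Q l = 0 := by
      intro l
      have h1 := cls_nonneg k P l
      have h2 := cls_nonneg k Q l
      rw [← hc] at h2
      have h3 := hno l
      rw [mul_add] at h3
      have h4 : sg (cls k P l) * crs k P l = 0 := by linarith
      have h5 : sg (cls k P l) * crs k Q l = 0 := by linarith
      have h6 : sg (cls k P l) ≠ 0 := by
        intro h; have := sg_sq (cls k P l); rw [h] at this; simp at this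
      exact ⟨(mul_eq_zero.1 h4).resolve_left h6, (mul_eq_zero.1 h5).resolve_left h6⟩
    have a0 := hz 0
    have a1 := hz 1
    have a2 := hz 2
    simp only [crs, Matrix.cons_val_zero, Matrix.cons_val_one, Matrix.cons_val] at a0 a1 a2
    have hmul : (k 0 ^ 2 + k 1 ^ 2 + k 2 ^ 2) *
        ((Q 0 - P 0) ^ 2 + (Q 1 - P 1) ^ 2 + (Q 2 - P 2) ^ 2) = 0 := by
      have e0 : k 1 * (Q 2 - P 2) - k 2 * (Q 1 - P 1) = 0 := by linear_combination a0.2 - a0.1
      have e1 : k 2 * (Q 0 - P 0) - k 0 * (Q 2 - P 2) = 0 := by linear_combination a1.2 - a1.1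
      have e2 : k 0 * (Q 1 - P 1) - k 1 * (Q 0 - P 0) = 0 := by linear_combination a2.2 - a2.1
      have e3 : k 0 * (Q 0 - P 0) + k 1 * (Q 1 - P 1) + k 2 * (Q 2 - P 2) = 0 := by
        linear_combination hkQ - hkP
      linear_combination (k 1 * (Q 2 - P 2) - k 2 * (Q 1 - P 1)) * e0 +
        (k 2 * (Q 0 - P 0) - k 0 * (Q 2 - P 2)) * e1 +
        (k 0 * (Q 1 - P 1) - k 1 * (Q 0 - P 0)) * e2 +
        (k 0 * (Q 0 - P 0) + k 1 * (Q 1 - P 1) + k 2 * (Q 2 - P 2)) * e3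
    rcases mul_eq_zero.1 hmul with h | h
    · apply hk
      obtain ⟨h0, h1, h2⟩ := sq0 _ _ _ h
      funext l; fin_cases l <;> simp [h0, h1, h2]
    · apply hPQ
      obtain ⟨h0, h1, h2⟩ := sq0 _ _ _ h
      funext l; fin_cases l
      · show P 0 = Q 0; omega
      · show P 1 = Q 1; omega
      · show P 2 = Q 2; omega
  obtain ⟨j, hj⟩ := hpos
  -- the difference is parallel to the sum of the cross products
  have hpar : ∀ a b, (Q a - P a) * (crs k P b + crs k Q b) =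
      (Q b - P b) * (crs k P a + crs k Q a) := by
    have c01 : (Q 0 - P 0) * (crs k P 1 + crs k Q 1) = (Q 1 - P 1) * (crs k P 0 + crs k Q 0) := by
      simp only [crs, Matrix.cons_val_zero, Matrix.cons_val_one, Matrix.cons_val]
      linear_combination (k 2) * hQ - (k 2) * hP - (Q 2 + P 2) * hkQ + (Q 2 + P 2) * hkP
    have c12 : (Q 1 - P 1) * (crs k P 2 + crs k Q 2) = (Q 2 - P 2) * (crs k P 1 + crs k Q 1) := by
      simp only [crs, Matrix.cons_val_zero, Matrix.cons_val_one, Matrix.cons_val]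
      linear_combination (k 0) * hQ - (k 0) * hP - (Q 0 + P 0) * hkQ + (Q 0 + P 0) * hkP
    have c20 : (Q 2 - P 2) * (crs k P 0 + crs k Q 0) = (Q 0 - P 0) * (crs k P 2 + crs k Q 2) := by
      simp only [crs, Matrix.cons_val_zero, Matrix.cons_val_one, Matrix.cons_val]
      linear_combination (k 1) * hQ - (k 1) * hP - (Q 1 + P 1) * hkQ + (Q 1 + P 1) * hkP
    intro a b
    fin_cases a <;> fin_cases b
    · rfl
    · exact c01
    · exact c20.symm
    · exact c01.symm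
    · rfl
    · exact c12
    · exact c20
    · exact c12.symm
    · rfl
  have key := cone (fun l => sg (cls k P l) * (Q l - P l))
    (fun l => sg (cls k P l) * (crs k P l + crs k Q l)) hu0 j hj (by
      intro a b
      show sg (cls k P a) * (Q a - P a) * (sg (cls k P b) * (crs k P b + crs k Q b)) =
        sg (cls k P b) * (Q b - P b) * (sg (cls k P a) * (crs k P a + crs k Q a))
      linear_combination (sg (cls k P a) * sg (cls k P b)) * hpar a b) i
  simp only [abs_sg] at key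
  refine key.trans (le_of_eq ?_)
  congr 1
  rw [← Finset.sum_sub_distrib]
  exact Finset.sum_congr rfl fun l _ => by ring

/-- the code of a point -/
def code (R T : ℕ) (k P : Wv) : (Fin 3 → Bool) × ℤ :=
  (cls k P, ((∑ l, sg (cls k P l) * P l) + 3 * R) / T)

theorem code_mem (R T : ℕ) (hT : 1 ≤ T) (k P : Wv) (hP : P ∈ cub R) :
    code R T k P ∈ (Finset.univ : Finset (Fin 3 → Bool)) ×ˢ Finset.Icc (0 : ℤ) ((6 * R : ℤ) / T) := by
  have hTp : (0 : ℤ) < T := by exact_mod_cast hT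
  have hb : ∀ l, |sg (cls k P l) * P l| ≤ R := by
    intro l
    rw [abs_sg]
    have := (Fintype.mem_piFinset.1 hP) l
    rw [Finset.mem_Icc] at this
    exact abs_le.2 this
  have h0 := abs_le.1 (hb 0)
  have h1 := abs_le.1 (hb 1)
  have h2 := abs_le.1 (hb 2)
  rw [Finset.mem_product]
  refine ⟨Finset.mem_univ _, ?_⟩
  rw [Finset.mem_Icc]
  unfold code
  simp only [Fin.sum_univ_three]
  constructor
  · apply Int.ediv_nonneg _ hTp.le
    linarith [h0.1, h1.1, h2.1]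
  · apply Int.ediv_le_ediv hTp
    linarith [h0.2, h1.2, h2.2]

theorem ediv_close (a b t : ℤ) (ht : 0 < t) (h : a / t = b / t) : |a - b| ≤ t := by
  have h1 := Int.emod_add_mul_ediv a t
  have h2 := Int.emod_add_mul_ediv b t
  have h3 := Int.emod_nonneg a ht.ne'
  have h4 := Int.emod_lt_of_pos a ht
  have h5 := Int.emod_nonneg b ht.ne'
  have h6 := Int.emod_lt_of_pos b ht
  rw [h] at h1
  rw [abs_le]
  constructor <;> linarith

open Classical in
/-- the main count -/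
theorem count (R T : ℕ) (hT : 1 ≤ T) (k : Wv) (hk : k ≠ 0) (n c : ℤ) :
    ((cub R).filter fun l => ∑ i, l i ^ 2 = n ∧ ∑ i, k i * l i = c).card ≤
      8 * ((6 * R) / T + 1) + 2 * (2 * T + 1) ^ 2 := by
  have hTp : (0 : ℤ) < T := by exact_mod_cast hT
  obtain ⟨S, hS⟩ : ∃ S, S = (cub R).filter fun l => ∑ i, l i ^ 2 = n ∧ ∑ i, k i * l i = c :=
    ⟨_, rfl⟩
  rw [← hS]
  have hmem : ∀ P ∈ S, P ∈ cub R ∧ ∑ i, P i ^ 2 = n ∧ ∑ i, k i * P i = c := by
    intro P hP; rw [hS] at hP; exact ⟨(Finset.mem_filter.1 hP).1, (Finset.mem_filter.1 hP).2⟩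
  obtain ⟨rep, hrep⟩ : ∃ rep : (Fin 3 → Bool) × ℤ → Wv, ∀ P ∈ S,
      rep (code R T k P) ∈ S ∧ code R T k (rep (code R T k P)) = code R T k P := by
    refine ⟨fun b => if h : ∃ P ∈ S, code R T k P = b then h.choose else 0, fun P hP => ?_⟩
    have h : ∃ P' ∈ S, code R T k P' = code R T k P := ⟨P, hP, rfl⟩
    simp only [dif_pos h]
    exact h.choose_spec
  have hsplit : S.card = (S.filter fun P => P = rep (code R T k P)).card +
      (S.filter fun P => ¬ P = rep (code R T k P)).card :=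
    (Finset.card_filter_add_card_filter_not _).symm
  -- representatives
  have hA : (S.filter fun P => P = rep (code R T k P)).card ≤ 8 * ((6 * R) / T + 1) := by
    have h1 : (S.filter fun P => P = rep (code R T k P)).card ≤
        ((Finset.univ : Finset (Fin 3 → Bool)) ×ˢ Finset.Icc (0 : ℤ) ((6 * R : ℤ) / T)).card := by
      apply Finset.card_le_card_of_injOn (code R T k)
      · intro P hP
        have hP' := Finset.mem_filter.1 (Finset.mem_coe.1 hP)
        exact Finset.mem_coe.2 (code_mem R T hT k P (hmem P hP'.1).1)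
      · intro P hP Q hQ hPQ
        have hP' := Finset.mem_filter.1 (Finset.mem_coe.1 hP)
        have hQ' := Finset.mem_filter.1 (Finset.mem_coe.1 hQ)
        rw [hP'.2, hQ'.2, hPQ]
    refine h1.trans (le_of_eq ?_)
    rw [Finset.card_product, Int.card_Icc]
    have : ((6 * R : ℤ) / T + 1 - 0).toNat = (6 * R) / T + 1 := by
      have h2 : ((6 * R : ℤ) / T) = ((6 * R / T : ℕ) : ℤ) := by push_cast; rfl
      rw [h2]
      generalize 6 * R / T = a
      omega
    rw [this]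
    congr 1
  -- the others
  have hB : (S.filter fun P => ¬ P = rep (code R T k P)).card ≤ 2 * (2 * T + 1) ^ 2 := by
    obtain ⟨i, hi⟩ : ∃ i, k i ≠ 0 := by
      by_contra hno; push Not at hno; exact hk (funext hno)
    have hs3 : ∀ f : Fin 3 → ℤ, ∑ l, f l = f i + f (i + 1) + f (i + 2) := by
      intro f; rw [Fin.sum_univ_three]; fin_cases i <;> simp <;> ring
    obtain ⟨g, hg⟩ : ∃ g : Wv → ℤ × ℤ, ∀ P, g P = (P (i + 1) - rep (code R T k P) (i + 1),
        P (i + 2) - rep (code R T k P) (i + 2)) := ⟨_, fun _ => rfl⟩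
    have himg : ((S.filter fun P => ¬ P = rep (code R T k P)).image g).card ≤ (2 * T + 1) ^ 2 := by
      have hsub : (S.filter fun P => ¬ P = rep (code R T k P)).image g ⊆
          Finset.Icc (-(T : ℤ)) T ×ˢ Finset.Icc (-(T : ℤ)) T := by
        intro b hb
        obtain ⟨P, hP, rfl⟩ := Finset.mem_image.1 hb
        have hP' := Finset.mem_filter.1 hP
        have hr := hrep P hP'.1
        have m1 := hmem P hP'.1
        have m2 := hmem _ hr.1
        have hcls : cls k (rep (code R T k P)) = cls k P := congrArg Prod.fst hr.2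
        have hfl : ((∑ l, sg (cls k (rep (code R T k P)) l) * rep (code R T k P) l) + 3 * R) / T =
            ((∑ l, sg (cls k P l) * P l) + 3 * R) / (T : ℤ) := congrArg Prod.snd hr.2
        have hmo := mono k (rep (code R T k P)) P hk (fun h => hP'.2 h.symm) n c m2.2.1 m1.2.1
          m2.2.2 m1.2.2 hcls
        have hcl := ediv_close _ _ (T : ℤ) hTp hfl
        have hall : ∀ l, |P l - rep (code R T k P) l| ≤ T := by
          intro l
          refine (hmo l).trans ?_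
          rw [← abs_neg]
          refine le_trans (le_of_eq ?_) hcl
          congr 1
          rw [hcls]
          ring
        rw [hg, Finset.mem_product, Finset.mem_Icc, Finset.mem_Icc]
        exact ⟨abs_le.1 (hall _), abs_le.1 (hall _)⟩
      refine (Finset.card_le_card hsub).trans (le_of_eq ?_)
      rw [Finset.card_product, Int.card_Icc, sq]
      congr 1 <;> omega
    refine (Finset.card_le_mul_card_image _ 2 ?_).trans (Nat.mul_le_mul_left 2 himg)
    intro b _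
    by_contra hlt
    push Not at hlt
    obtain ⟨P, Q, U, hP, hQ, hU, hPQ, hPU, hQU⟩ := Finset.two_lt_card_iff.1 hlt
    rw [Finset.mem_filter, Finset.mem_filter] at hP hQ hU
    obtain ⟨⟨hP1, hP2⟩, hP3⟩ := hP
    obtain ⟨⟨hQ1, hQ2⟩, hQ3⟩ := hQ
    obtain ⟨⟨hU1, hU2⟩, hU3⟩ := hU
    -- the differences agree
    have hdiff : ∀ A B : Wv, A ∈ S → B ∈ S → g A = b → g B = b → ∀ l,
        A l - rep (code R T k A) l = B l - rep (code R T k B) l := by
      intro A B hA hB hgA hgB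
      have e := hgA.trans hgB.symm
      rw [hg, hg] at e
      have e1 : A (i + 1) - rep (code R T k A) (i + 1) = B (i + 1) - rep (code R T k B) (i + 1) :=
        congrArg Prod.fst e
      have e2 : A (i + 2) - rep (code R T k A) (i + 2) = B (i + 2) - rep (code R T k B) (i + 2) :=
        congrArg Prod.snd e
      have kA := (hmem A hA).2.2
      have kB := (hmem B hB).2.2
      have kA' := (hmem _ (hrep A hA).1).2.2
      have kB' := (hmem _ (hrep B hB).1).2.2
      rw [hs3] at kA kB kA' kB'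
      have e0 : A i - rep (code R T k A) i = B i - rep (code R T k B) i := by
        apply mul_left_cancel₀ hi
        linear_combination kA - kA' - kB + kB' - k (i + 1) * e1 - k (i + 2) * e2
      intro l
      have hl : l = i ∨ l = i + 1 ∨ l = i + 2 := by
        fin_cases i <;> fin_cases l <;> simp
      rcases hl with rfl | rfl | rfl
      · exact e0
      · exact e1
      · exact e2
    have dPQ := hdiff P Q hP1 hQ1 hP3 hQ3
    have dPU := hdiff P U hP1 hU1 hP3 hU3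
    have mP := hmem P hP1
    have mQ := hmem Q hQ1
    have mU := hmem U hU1
    have rP := hmem _ (hrep P hP1).1
    have rQ := hmem _ (hrep Q hQ1).1
    have rU := hmem _ (hrep U hU1).1
    obtain ⟨P', hP'⟩ : ∃ P', P' = rep (code R T k P) := ⟨_, rfl⟩
    obtain ⟨Q', hQ'⟩ : ∃ Q', Q' = rep (code R T k Q) := ⟨_, rfl⟩
    obtain ⟨U', hU'⟩ : ∃ U', U' = rep (code R T k U) := ⟨_, rfl⟩
    rw [← hP'] at dPQ dPU rP hP2
    rw [← hQ'] at dPQ rQ
    rw [← hU'] at dPU rU
    have eQ0 : Q' 0 = Q 0 - (P 0 - P' 0) := by linarith [dPQ 0]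
    have eQ1 : Q' 1 = Q 1 - (P 1 - P' 1) := by linarith [dPQ 1]
    have eQ2 : Q' 2 = Q 2 - (P 2 - P' 2) := by linarith [dPQ 2]
    have eU0 : U' 0 = U 0 - (P 0 - P' 0) := by linarith [dPU 0]
    have eU1 : U' 1 = U 1 - (P 1 - P' 1) := by linarith [dPU 1]
    have eU2 : U' 2 = U 2 - (P 2 - P' 2) := by linarith [dPU 2]
    have nP := mP.2.1
    have nQ := mQ.2.1
    have nU := mU.2.1
    have nP' := rP.2.1
    have nQ' := rQ.2.1
    have nU' := rU.2.1
    have cP := mP.2.2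
    have cQ := mQ.2.2
    have cU := mU.2.2
    have cP' := rP.2.2
    simp only [Fin.sum_univ_three] at nP nQ nU nP' nQ' nU' cP cQ cU cP'
    rw [eQ0, eQ1, eQ2] at nQ'
    rw [eU0, eU1, eU2] at nU'
    have hne : ∀ A B : Wv, A ≠ B → ¬ (B 0 - A 0 = 0 ∧ B 1 - A 1 = 0 ∧ B 2 - A 2 = 0) := by
      rintro A B hAB ⟨h0, h1, h2⟩
      apply hAB
      funext l; fin_cases l
      · show A 0 = B 0; omega
      · show A 1 = B 1; omega
      · show A 2 = B 2; omega
    have fin := line_sphere (k 0) (k 1) (k 2) (P 0 - P' 0) (P 1 - P' 1) (P 2 - P' 2)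
      (Q 0 - P 0) (Q 1 - P 1) (Q 2 - P 2) (U 0 - P 0) (U 1 - P 1) (U 2 - P 2) (P 0) (P 1) (P 2)
      (by linear_combination cP - cP')
      (by
        rintro ⟨h0, h1, h2⟩
        apply hk
        funext l; fin_cases l
        · exact h0
        · exact h1
        · exact h2)
      (hne P' P fun h => hP2 h.symm)
      (by linear_combination cQ - cP) (by linear_combination cU - cP)
      (by
        have : 2 * ((P 0 - P' 0) * (Q 0 - P 0) + (P 1 - P' 1) * (Q 1 - P 1) +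
            (P 2 - P' 2) * (Q 2 - P 2)) = 0 := by
          linear_combination nQ - nP - nQ' + nP'
        omega)
      (by
        have : 2 * ((P 0 - P' 0) * (U 0 - P 0) + (P 1 - P' 1) * (U 1 - P 1) +
            (P 2 - P' 2) * (U 2 - P 2)) = 0 := by
          linear_combination nU - nP - nU' + nP'
        omega)
      (by linear_combination nQ - nP) (by linear_combination nU - nP)
      (hne P Q hPQ) (hne P U hPU)
    apply hQU
    funext l; fin_cases l
    · show Q 0 = U 0; omega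
    · show Q 1 = U 1; omega
    · show Q 2 = U 2; omega
  omega

theorem t_CIR : S_CIR := by
  refine ⟨106, by norm_num, fun R hR k hk n c => ?_⟩
  have hR1 : (1 : ℝ) ≤ R := by exact_mod_cast hR
  obtain ⟨s, hs⟩ : ∃ s : ℝ, s = (R : ℝ) ^ (1 / 3 : ℝ) := ⟨_, rfl⟩
  have hs1 : 1 ≤ s := by rw [hs]; exact Real.one_le_rpow hR1 (by norm_num)
  have hs2 : (R : ℝ) ^ (2 / 3 : ℝ) = s ^ 2 := by
    rw [hs, ← Real.rpow_natCast, ← Real.rpow_mul (by linarith)]; norm_num
  have hs3 : (R : ℝ) = s ^ 3 := by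
    rw [hs, ← Real.rpow_natCast, ← Real.rpow_mul (by linarith)]; norm_num
  obtain ⟨T, hT⟩ : ∃ T, T = ⌈s⌉₊ := ⟨_, rfl⟩
  have hT1 : s ≤ T := by rw [hT]; exact Nat.le_ceil s
  have hT2 : (T : ℝ) < s + 1 := by rw [hT]; exact Nat.ceil_lt_add_one (by linarith)
  have hT3 : 1 ≤ T := by
    have : (1 : ℝ) ≤ T := by linarith
    exact_mod_cast this
  have h := count R T hT3 k hk n c
  have h' : (((cub R).filter fun l => ∑ i, l i ^ 2 = n ∧ ∑ i, k i * l i = c).card : ℝ) ≤
      8 * (((6 * R / T : ℕ) : ℝ) + 1) + 2 * (2 * (T : ℝ) + 1) ^ 2 := by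
    have := (Nat.cast_le (α := ℝ)).2 h
    push_cast at this
    convert this using 2
  refine h'.trans ?_
  have hdiv : ((6 * R / T : ℕ) : ℝ) ≤ 6 * s ^ 2 := by
    have h1 : ((6 * R / T : ℕ) : ℝ) ≤ ((6 * R : ℕ) : ℝ) / (T : ℝ) := Nat.cast_div_le
    refine h1.trans ?_
    have hTpos : (0 : ℝ) < T := by linarith
    rw [div_le_iff₀ hTpos]
    push_cast
    rw [hs3]
    nlinarith [sq_nonneg s, mul_le_mul_of_nonneg_left hT1 (sq_nonneg s)]
  rw [hs2]
  nlinarith [sq_nonneg s, mul_self_nonneg (s - 1)]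

end Pool.Agent.U884.RT.CIR
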