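import Pool.Agent.U136.RT.LabStm

set_option autoImplicit false

/-! The number of the triads with given lengths. -/

namespace Pool.Agent.U884.RT.ISO

open Pool.Agent.N983.RT Pool.Agent.U136.RT.Lab

open Classical in
/-- three given lengths, in order -/
theorem three (R : ℕ) (X Y : ℝ) (hX : 0 ≤ X) (hY : 0 ≤ Y)
    (hs : ∀ n : ℤ, (((cub R).filter fun k => ∑ i, k i ^ 2 = n).card : ℝ) ≤ X)
    (hc : ∀ k : Wv, k ≠ 0 → ∀ n c : ℤ,
      (((cub R).filter fun l => ∑ i, l i ^ 2 = n ∧ ∑ i, k i * l i = c).card : ℝ) ≤ Y)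
    (a b c : ℤ) :
    (((cub R ×ˢ cub R).filter fun p => ∑ i, p.1 i ^ 2 = a ∧ ∑ i, p.2 i ^ 2 = b ∧
      ∑ i, (-(p.1 + p.2)) i ^ 2 = c).card : ℝ) ≤ X * Y + X := by
  obtain ⟨L, hL⟩ : ∃ L : Wv → Finset Wv, ∀ k, L k =
      if k = 0 then (cub R).filter fun l => ∑ i, l i ^ 2 = b
      else (cub R).filter fun l => ∑ i, l i ^ 2 = b ∧ ∑ i, k i * l i = (c - a - b) / 2 :=
    ⟨_, fun _ => rfl⟩
  have hsub : ((cub R ×ˢ cub R).filter fun p => ∑ i, p.1 i ^ 2 = a ∧ ∑ i, p.2 i ^ 2 = b ∧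
      ∑ i, (-(p.1 + p.2)) i ^ 2 = c) ⊆
      ((cub R).filter fun k => ∑ i, k i ^ 2 = a).biUnion fun k => (L k).image (Prod.mk k) := by
    intro p hp
    rw [Finset.mem_filter, Finset.mem_product] at hp
    obtain ⟨⟨hp1, hp2⟩, h1, h2, h3⟩ := hp
    rw [Finset.mem_biUnion]
    refine ⟨p.1, Finset.mem_filter.2 ⟨hp1, h1⟩, ?_⟩
    rw [Finset.mem_image]
    refine ⟨p.2, ?_, rfl⟩
    rw [hL]
    by_cases h0 : p.1 = 0
    · rw [if_pos h0]; exact Finset.mem_filter.2 ⟨hp2, h2⟩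
    · rw [if_neg h0]
      refine Finset.mem_filter.2 ⟨hp2, h2, ?_⟩
      have h4 : 2 * ∑ i, p.1 i * p.2 i = c - a - b := by
        rw [← h1, ← h2, ← h3]
        simp only [Fin.sum_univ_three, Pi.neg_apply, Pi.add_apply]
        ring
      omega
  have h1 : ((((cub R ×ˢ cub R).filter fun p => ∑ i, p.1 i ^ 2 = a ∧ ∑ i, p.2 i ^ 2 = b ∧
      ∑ i, (-(p.1 + p.2)) i ^ 2 = c).card : ℕ) : ℝ) ≤
      ∑ k ∈ (cub R).filter (fun k => ∑ i, k i ^ 2 = a), ((L k).card : ℝ) := by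
    have h2 := (Finset.card_le_card hsub).trans Finset.card_biUnion_le
    have h3 : ∑ k ∈ (cub R).filter (fun k => ∑ i, k i ^ 2 = a), ((L k).image (Prod.mk k)).card ≤
        ∑ k ∈ (cub R).filter (fun k => ∑ i, k i ^ 2 = a), (L k).card :=
      Finset.sum_le_sum fun k _ => Finset.card_image_le
    exact_mod_cast h2.trans h3
  refine h1.trans ?_
  have h2 : ∀ k ∈ (cub R).filter (fun k => ∑ i, k i ^ 2 = a),
      ((L k).card : ℝ) ≤ Y + if k = 0 then X else 0 := by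
    intro k _
    rw [hL]
    by_cases h0 : k = 0
    · rw [if_pos h0, if_pos h0]
      linarith [hs b]
    · rw [if_neg h0, if_neg h0, add_zero]
      exact hc k h0 b _
  refine (Finset.sum_le_sum h2).trans ?_
  rw [Finset.sum_add_distrib, Finset.sum_const, nsmul_eq_mul]
  refine add_le_add (mul_le_mul_of_nonneg_right (hs a) hY) ?_
  rw [Finset.sum_ite_eq']
  split_ifs
  · exact le_rfl
  · exact hX

theorem t_ISO : S_SPH → S_CIR → S_ISO := by
  classical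
  intro hsph hcir γ hγ
  obtain ⟨C, hC, hs⟩ := hsph (γ - 5 / 3) (by linarith)
  obtain ⟨C', hC', hc⟩ := hcir
  refine ⟨27 * (C * C' + C), by positivity, fun R hR T => ?_⟩
  have hR1 : (1 : ℝ) ≤ R := by exact_mod_cast hR
  have hR0 : (0 : ℝ) < R := by linarith
  have key := three R (C * (R : ℝ) ^ (1 + (γ - 5 / 3))) (C' * (R : ℝ) ^ (2 / 3 : ℝ))
    (by positivity) (by positivity) (fun n => by convert hs R hR n)
    (fun k hk n c => by convert hc R hR k hk n c)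
  have hXY : C * (R : ℝ) ^ (1 + (γ - 5 / 3)) * (C' * (R : ℝ) ^ (2 / 3 : ℝ)) +
      C * (R : ℝ) ^ (1 + (γ - 5 / 3)) ≤ (C * C' + C) * (R : ℝ) ^ γ := by
    have e1 : (R : ℝ) ^ (1 + (γ - 5 / 3)) * (R : ℝ) ^ (2 / 3 : ℝ) = (R : ℝ) ^ γ := by
      rw [← Real.rpow_add hR0]; congr 1; ring
    have e2 : (R : ℝ) ^ (1 + (γ - 5 / 3)) ≤ (R : ℝ) ^ γ :=
      Real.rpow_le_rpow_of_exponent_le hR1 (by linarith)
    have e3 : C * (R : ℝ) ^ (1 + (γ - 5 / 3)) * (C' * (R : ℝ) ^ (2 / 3 : ℝ)) =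
        C * C' * (R : ℝ) ^ γ := by rw [← e1]; ring
    rw [e3, add_mul]
    exact add_le_add le_rfl (mul_le_mul_of_nonneg_left e2 hC.le)
  have hnum : num iso R T = ((cub R ×ˢ cub R).filter fun p =>
      iso p.1 p.2 (-(p.1 + p.2)) = T).card := by
    unfold num; congr
  by_cases hT : Multiset.card T = 3
  · have hsub : ((cub R ×ˢ cub R).filter fun p => iso p.1 p.2 (-(p.1 + p.2)) = T) ⊆
        (T.toFinset ×ˢ T.toFinset ×ˢ T.toFinset).biUnion fun t =>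
          ((cub R ×ˢ cub R).filter fun p => ∑ i, p.1 i ^ 2 = t.1 ∧ ∑ i, p.2 i ^ 2 = t.2.1 ∧
            ∑ i, (-(p.1 + p.2)) i ^ 2 = t.2.2) := by
      intro p hp
      rw [Finset.mem_filter] at hp
      obtain ⟨hp1, hp2⟩ := hp
      rw [Finset.mem_biUnion]
      refine ⟨(∑ i, p.1 i ^ 2, ∑ i, p.2 i ^ 2, ∑ i, (-(p.1 + p.2)) i ^ 2), ?_,
        Finset.mem_filter.2 ⟨hp1, rfl, rfl, rfl⟩⟩
      rw [Finset.mem_product, Finset.mem_product, Multiset.mem_toFinset, Multiset.mem_toFinset,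
        Multiset.mem_toFinset, ← hp2]
      unfold iso
      simp
    have hcard : (num iso R T : ℝ) ≤
        ∑ t ∈ T.toFinset ×ˢ T.toFinset ×ˢ T.toFinset,
          (((cub R ×ˢ cub R).filter fun p => ∑ i, p.1 i ^ 2 = t.1 ∧ ∑ i, p.2 i ^ 2 = t.2.1 ∧
            ∑ i, (-(p.1 + p.2)) i ^ 2 = t.2.2).card : ℝ) := by
      have h2 := (Finset.card_le_card hsub).trans Finset.card_biUnion_le
      rw [hnum]
      exact_mod_cast h2
    refine hcard.trans ((Finset.sum_le_sum fun t _ => key t.1 t.2.1 t.2.2).trans ?_)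
    rw [Finset.sum_const, nsmul_eq_mul]
    have h27 : ((T.toFinset ×ˢ T.toFinset ×ˢ T.toFinset).card : ℝ) ≤ 27 := by
      have h4 : T.toFinset.card ≤ 3 := (Multiset.toFinset_card_le T).trans hT.le
      have h5 : (T.toFinset ×ˢ T.toFinset ×ˢ T.toFinset).card ≤ 3 * (3 * 3) := by
        rw [Finset.card_product, Finset.card_product]
        exact Nat.mul_le_mul h4 (Nat.mul_le_mul h4 h4)
      have : (T.toFinset ×ˢ T.toFinset ×ˢ T.toFinset).card ≤ 27 := by omega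
      exact_mod_cast this
    calc ((T.toFinset ×ˢ T.toFinset ×ˢ T.toFinset).card : ℝ) *
          (C * (R : ℝ) ^ (1 + (γ - 5 / 3)) * (C' * (R : ℝ) ^ (2 / 3 : ℝ)) +
            C * (R : ℝ) ^ (1 + (γ - 5 / 3)))
        ≤ 27 * ((C * C' + C) * (R : ℝ) ^ γ) :=
          mul_le_mul h27 hXY (by positivity) (by norm_num)
      _ = 27 * (C * C' + C) * (R : ℝ) ^ γ := by ring
  · have h0 : num iso R T = 0 := by
      rw [hnum, Finset.card_eq_zero, Finset.filter_eq_empty_iff]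
      intro p _ h
      apply hT
      rw [← h]
      unfold iso
      simp
    rw [h0]
    have : (0 : ℝ) ≤ (R : ℝ) ^ γ := by positivity
    push_cast
    positivity

end Pool.Agent.U884.RT.ISO
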